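import Pool.Agent.H59.UV.Stm

/-! Part DEC: decomposition of the independence sequence along a vertex cover. -/

set_option autoImplicit false
open Finset

namespace Pool.Agent.H43.UV
open Pool.Agent.H59.UV

theorem t_DEC : S_DEC := by
  classical
  intro V _ _ G C hC
  let W : Finset V → Finset V := fun S => (univ \ C).filter (fun v => ∀ u ∈ S, ¬ G.Adj u v)
  have hW : ∀ S v, v ∈ W S ↔ v ∉ C ∧ ∀ u ∈ S, ¬ G.Adj u v := by
    intro S v
    simp [W]
  refine ⟨C.powerset.filter (fun S => G.IsIndepSet (S : Set V)), fun S => (W S).card,
    filter_subset _ _, ?_, ?_, ?_, ?_⟩
  · rw [mem_filter]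
    exact ⟨empty_mem_powerset _, by simp [SimpleGraph.IsIndepSet]⟩
  · have h0 : W ∅ = univ \ C := by
      ext v
      rw [hW]
      simp
    show (W ∅).card = _
    rw [h0, card_sdiff_of_subset (subset_univ _), card_univ]
  · intro S
    calc (W S).card ≤ (univ \ C).card := card_filter_le _ _
      _ = _ := by rw [card_sdiff_of_subset (subset_univ _), card_univ]
  · intro k
    have h1 : iseq G k =
        (univ.filter (fun J : Finset V => J.card = k ∧ G.IsIndepSet (J : Set V))).card := by
      unfold iseq
      rw [← Set.ncard_coe_finset]
      congr 1
      ext J
      simp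
    rw [h1, card_eq_sum_card_fiberwise (f := fun J => J ∩ C)
      (t := C.powerset.filter (fun S => G.IsIndepSet (S : Set V)))]
    · refine sum_congr rfl (fun S hS => ?_)
      rw [mem_filter, mem_powerset] at hS
      obtain ⟨hSC, hSi⟩ := hS
      unfold Bs
      split_ifs with hk
      · rw [← card_powersetCard]
        refine card_nbij' (fun J => J \ C) (fun J' => S ∪ J') ?_ ?_ ?_ ?_
        · intro J hJ
          simp only [coe_filter, mem_filter, mem_univ, true_and, Set.mem_ofPred_eq] at hJ
          obtain ⟨⟨hJk, hJi⟩, hJS⟩ := hJ
          simp only [mem_coe, mem_powersetCard]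
          constructor
          · intro v hv
            rw [mem_sdiff] at hv
            rw [hW]
            refine ⟨hv.2, fun u hu => ?_⟩
            rw [← hJS, mem_inter] at hu
            refine hJi (mem_coe.2 hu.1) (mem_coe.2 hv.1) ?_
            rintro rfl
            exact hv.2 hu.2
          · have := card_sdiff_add_card_inter J C
            rw [hJS] at this
            omega
        · intro J' hJ'
          simp only [mem_coe, mem_powersetCard] at hJ'
          obtain ⟨hJW, hJc⟩ := hJ'
          have hdis : Disjoint S J' := by
            rw [disjoint_left]
            intro v hv hv'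
            exact ((hW _ _).1 (hJW hv')).1 (hSC hv)
          simp only [coe_filter, mem_filter, mem_univ, true_and, Set.mem_ofPred_eq]
          refine ⟨⟨?_, ?_⟩, ?_⟩
          · rw [card_union_of_disjoint hdis, hJc]
            omega
          · intro u hu v hv huv hadj
            rw [mem_coe, mem_union] at hu hv
            rcases hu with hu | hu <;> rcases hv with hv | hv
            · exact hSi (mem_coe.2 hu) (mem_coe.2 hv) huv hadj
            · exact ((hW _ _).1 (hJW hv)).2 u hu hadj
            · exact ((hW _ _).1 (hJW hu)).2 v hv hadj.symm
            · rcases hC u v hadj with h | h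
              · exact ((hW _ _).1 (hJW hu)).1 h
              · exact ((hW _ _).1 (hJW hv)).1 h
          · ext v
            rw [mem_inter, mem_union]
            constructor
            · rintro ⟨h | h, hv⟩
              · exact h
              · exact absurd hv ((hW _ _).1 (hJW h)).1
            · intro h
              exact ⟨Or.inl h, hSC h⟩
        · intro J hJ
          simp only [coe_filter, mem_filter, mem_univ, true_and, Set.mem_ofPred_eq] at hJ
          obtain ⟨_, hJS⟩ := hJ
          show S ∪ (J \ C) = J
          rw [← hJS]
          ext v
          simp only [mem_union, mem_inter, mem_sdiff]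
          tauto
        · intro J' hJ'
          simp only [mem_coe, mem_powersetCard] at hJ'
          obtain ⟨hJW, _⟩ := hJ'
          show (S ∪ J') \ C = J'
          ext v
          rw [mem_sdiff, mem_union]
          constructor
          · rintro ⟨h | h, hv⟩
            · exact absurd (hSC h) hv
            · exact h
          · intro h
            exact ⟨Or.inr h, ((hW _ _).1 (hJW h)).1⟩
      · rw [card_eq_zero, filter_eq_empty_iff]
        intro J hJ hJS
        rw [mem_filter] at hJ
        apply hk
        rw [← hJS, ← hJ.2.1]
        exact card_le_card inter_subset_left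
    · intro J hJ
      simp only [coe_filter, mem_univ, true_and, Set.mem_ofPred_eq] at hJ
      simp only [coe_filter, mem_powerset, Set.mem_ofPred_eq]
      refine ⟨inter_subset_right, ?_⟩
      intro u hu v hv huv
      rw [mem_coe, mem_inter] at hu hv
      exact hJ.2 (mem_coe.2 hu.1) (mem_coe.2 hv.1) huv

end Pool.Agent.H43.UV
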